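import Pool.Agent.Helper30.PB.St

/-!
# Project PB, module BTP: Brun-Titchmarsh from the sieve
-/

set_option autoImplicit false

noncomputable section

namespace Pool.Agent.Helper80.PB

open Pool.Agent.Helper30.PB
open Finset ArithmeticFunction
open Pool.Agent.Helper93.KN (ff StSieve StAvg)

private lemma ff1 (m : ℕ) : 1 ≤ ff m := by
  unfold ff
  have h : ∏ l ∈ m.primeFactors, (1 : ℝ) ≤ ∏ l ∈ m.primeFactors, (1 + 4 / (l : ℝ)) := by
    refine Finset.prod_le_prod (fun _ _ => zero_le_one) (fun l _ => ?_)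
    have : (0 : ℝ) ≤ 4 / (l : ℝ) := by positivity
    linarith
  simpa using h

private lemma cls (l r d : ℕ) (hl : l.Prime) (hd : ¬ l ∣ d) :
    ((range l).filter (fun s => l ∣ r + d * s)).card = 1 := by
  have : Fact l.Prime := ⟨hl⟩
  have hd0 : (d : ZMod l) ≠ 0 := fun h => hd ((ZMod.natCast_eq_zero_iff d l).1 h)
  rw [Finset.card_eq_one]
  refine ⟨((-(r : ZMod l)) * (d : ZMod l)⁻¹).val, ?_⟩
  ext s
  rw [mem_filter, mem_range, mem_singleton]
  constructor
  · rintro ⟨h1, h2⟩
    have h3 : ((r + d * s : ℕ) : ZMod l) = 0 := (ZMod.natCast_eq_zero_iff _ l).2 h2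
    push_cast at h3
    have h4 : (s : ZMod l) = (-(r : ZMod l)) * (d : ZMod l)⁻¹ := by
      field_simp
      linear_combination h3
    rw [← h4, ZMod.val_natCast_of_lt h1]
  · intro h
    subst h
    refine ⟨ZMod.val_lt _, ?_⟩
    rw [← ZMod.natCast_eq_zero_iff]
    push_cast
    rw [ZMod.natCast_zmod_val]
    field_simp
    ring

open Classical in
/-- Module BTP. -/
theorem hBTP (hS : StSieve) : StBTP := by
  obtain ⟨C, δ, hC, hδ, hδ4, hs⟩ := hS 1 le_rfl (by norm_num)
  refine ⟨4 * (C + 3), by positivity, ?_⟩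
  intro K d t hK hd hdK
  set N := K / d with hN
  have hdN : d ≤ N := by
    rw [hN, Nat.le_div_iff_mul_le hd]
    nlinarith
  have hNd : N * d ≤ K := Nat.div_mul_le_self K d
  have hKN : K < (N + 1) * d := by
    rw [hN]
    exact Nat.lt_mul_of_div_lt (Nat.lt_succ_self _) hd
  have hN2 : 2 ≤ N := by
    by_contra h
    have h1 : d = 1 := by omega
    rw [h1, Nat.div_one] at hN
    omega
  have hKN4 : K ≤ N ^ 4 := by
    have h1 : (N + 1) * d ≤ (N + 1) * N := Nat.mul_le_mul_left _ hdN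
    have h2 : (N + 1) * N ≤ N ^ 4 := by
      have : N + 1 ≤ N ^ 3 := by nlinarith [Nat.mul_le_mul hN2 hN2]
      calc (N + 1) * N ≤ N ^ 3 * N := Nat.mul_le_mul_right _ this
        _ = N ^ 4 := by ring
    omega
  set r := t % d with hr
  -- the sieve
  let S : ℕ → Finset ℕ := fun l => if l ∣ d then ∅ else (range l).filter (fun s => l ∣ r + d * s)
  have hS' := hs N hN2 S d (by omega) (by
    intro l hl h5
    refine ⟨?_, ?_, ?_⟩
    · intro s hs
      simp only [S] at hs
      split_ifs at hs with h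
      · simp at hs
      · exact mem_range.1 (mem_filter.1 hs).1
    · simp only [S]
      split_ifs with h
      · simp
      · rw [cls l r d hl h]
    · intro h
      simp only [S]
      rw [if_neg h, cls l r d hl h])
  rw [pow_one] at hS'
  -- the counting
  have h1 : (pc K d t).card ≤ ((range (N + 1)).filter (fun j => (r + d * j).Prime)).card := by
    refine Finset.card_le_card_of_injOn (fun p => p / d) ?_ ?_
    · intro p hp
      have hp' := (mem_filter.1 (Finset.mem_coe.1 hp))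
      obtain ⟨h1, h2, h3⟩ := hp'
      rw [mem_Icc] at h1
      rw [Finset.mem_coe, mem_filter, mem_range]
      refine ⟨Nat.lt_succ_of_le (Nat.div_le_div_right h1.2), ?_⟩
      have e : r + d * (p / d) = p := by
        rw [hr, ← h3]; exact Nat.mod_add_div p d
      rw [e]; exact h2
    · intro p hp q hq h
      have hp' := (mem_filter.1 (Finset.mem_coe.1 hp)).2.2
      have hq' := (mem_filter.1 (Finset.mem_coe.1 hq)).2.2
      simp only at h
      rw [← Nat.mod_add_div p d, ← Nat.mod_add_div q d, hp', hq', h]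
  set A := (Icc 1 N).filter (fun n : ℕ => ∀ l : ℕ, l.Prime → 5 ≤ l → (l : ℝ) ≤ (N : ℝ) ^ δ →
      n % l ∉ S l) with hA
  have h2 : ((range (N + 1)).filter (fun j => (r + d * j).Prime)) ⊆
      A ∪ range (⌊(N : ℝ) ^ δ⌋₊ + 1) := by
    intro j hj
    obtain ⟨hj1, hj2⟩ := mem_filter.1 hj
    rw [mem_range] at hj1
    rw [mem_union]
    by_cases hj0 : j = 0
    · right; rw [hj0, mem_range]; omega
    by_cases hA' : ∀ l : ℕ, l.Prime → 5 ≤ l → (l : ℝ) ≤ (N : ℝ) ^ δ → j % l ∉ S l
    · left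
      rw [hA, mem_filter, mem_Icc]
      exact ⟨⟨by omega, by omega⟩, hA'⟩
    · right
      push Not at hA'
      obtain ⟨l, hl, h5, hlN, hlS⟩ := hA'
      simp only [S] at hlS
      split_ifs at hlS with h
      · simp at hlS
      · have h3 := (mem_filter.1 hlS).2
        have h4 : l ∣ r + d * j := by
          have e : r + d * j = r + d * (j % l) + l * (d * (j / l)) := by
            conv_lhs => rw [← Nat.mod_add_div j l]
            ring
          rw [e]
          exact Dvd.dvd.add h3 (Dvd.intro _ rfl)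
        have h5' : l = r + d * j := (Nat.prime_dvd_prime_iff_eq hl hj2).1 h4
        have h6 : j ≤ l := by
          rw [h5']
          nlinarith
        rw [mem_range]
        have : j ≤ ⌊(N : ℝ) ^ δ⌋₊ := by
          refine Nat.le_floor (le_trans ?_ hlN)
          exact_mod_cast h6
        omega
  have h3 : (pc K d t).card ≤ A.card + (⌊(N : ℝ) ^ δ⌋₊ + 1) := by
    refine h1.trans ((card_le_card h2).trans ((card_union_le _ _).trans ?_))
    rw [card_range]
  have hNr : (2 : ℝ) ≤ N := by exact_mod_cast hN2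
  have hN0 : (0 : ℝ) < N := by linarith
  have hlogN : 0 < Real.log N := Real.log_pos (by linarith)
  have hKr : (2 : ℝ) ≤ K := by exact_mod_cast hK
  have hlogK : 0 < Real.log K := Real.log_pos (by linarith)
  have hd0 : (0 : ℝ) < d := by exact_mod_cast hd
  have hlog4 : Real.log K ≤ 4 * Real.log N := by
    have e : (K : ℝ) ≤ (N : ℝ) ^ 4 := by exact_mod_cast hKN4
    have := Real.log_le_log (by linarith) e
    rwa [Real.log_pow] at this
  have hNle : (N : ℝ) ≤ K / d := by
    rw [le_div_iff₀ hd0]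
    exact_mod_cast hNd
  have hpow : (N : ℝ) ^ δ ≤ (4 / 3) * (N / Real.log N) := by
    have e1 : (N : ℝ) ^ δ ≤ (N : ℝ) ^ (1 / 4 : ℝ) :=
      Real.rpow_le_rpow_of_exponent_le (by linarith) hδ4
    have e2 : Real.log N ≤ (N : ℝ) ^ (3 / 4 : ℝ) / (3 / 4) :=
      Real.log_le_rpow_div hN0.le (by norm_num)
    have e3 : (N : ℝ) ^ (1 / 4 : ℝ) * (N : ℝ) ^ (3 / 4 : ℝ) = N := by
      rw [← Real.rpow_add hN0]; norm_num
    have e4 : (N : ℝ) ^ (1 / 4 : ℝ) * Real.log N ≤ (4 / 3) * N := by
      have := mul_le_mul_of_nonneg_left e2 (Real.rpow_nonneg hN0.le (1 / 4 : ℝ))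
      calc (N : ℝ) ^ (1 / 4 : ℝ) * Real.log N ≤ _ := this
        _ = (4 / 3) * ((N : ℝ) ^ (1 / 4 : ℝ) * (N : ℝ) ^ (3 / 4 : ℝ)) := by ring
        _ = (4 / 3) * N := by rw [e3]
    have e5 : (N : ℝ) ^ (1 / 4 : ℝ) ≤ (4 / 3) * (N / Real.log N) := by
      rw [← mul_div_assoc, le_div_iff₀ hlogN]
      exact e4
    exact e1.trans e5
  have hone : 1 ≤ (N : ℝ) / Real.log N := by
    rw [le_div_iff₀ hlogN, one_mul]
    have := Real.log_le_sub_one_of_pos hN0
    linarith
  have hX : (N : ℝ) / Real.log N ≤ 4 * (K / (d * Real.log K)) := by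
    calc (N : ℝ) / Real.log N ≤ (K / d) / (Real.log K / 4) := by
          apply div_le_div₀ (by positivity) hNle (by positivity)
          linarith
      _ = 4 * (K / (d * Real.log K)) := by field_simp
  have hf := ff1 d
  have hfl : ((⌊(N : ℝ) ^ δ⌋₊ : ℕ) : ℝ) ≤ (N : ℝ) ^ δ := Nat.floor_le (Real.rpow_nonneg hN0.le _)
  have h3' : ((pc K d t).card : ℝ) ≤ (A.card : ℝ) + (((⌊(N : ℝ) ^ δ⌋₊ : ℕ) : ℝ) + 1) := by
    exact_mod_cast h3
  have hY : 0 ≤ (N : ℝ) / Real.log N := by positivity
  calc ((pc K d t).card : ℝ) ≤ (A.card : ℝ) + (((⌊(N : ℝ) ^ δ⌋₊ : ℕ) : ℝ) + 1) := h3'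
    _ ≤ C * (N / Real.log N) * ff d + ((4 / 3) * (N / Real.log N) + N / Real.log N) := by
        linarith
    _ ≤ (C + 3) * (N / Real.log N) * ff d := by
        nlinarith [mul_le_mul_of_nonneg_left hf hY]
    _ ≤ (C + 3) * (4 * (K / (d * Real.log K))) * ff d := by
        gcongr
    _ = 4 * (C + 3) * (K / (d * Real.log K)) * ff d := by ring

end Pool.Agent.Helper80.PB
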