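import Pool.Agent.Helper58.PB.StM
import Pool.Agent.Helper29.GK.M_RAM

/-!
# Project PB, module CRM: Ramanujan sums are multiplicative, periodic, and their size
-/

set_option autoImplicit false

namespace Pool.Agent.Helper80.PB

open Finset ArithmeticFunction
open Pool.Agent.Helper58.PB
open Pool.Agent.Helper23.GK (cR)
open Pool.Agent.Helper29.GK (cRf_mult cR_prime cR_one)

private lemma cR_mul_CRM (s t : ℕ) (n : ℤ) (h : Nat.Coprime s t) :
    cR (s * t) n = cR s n * cR t n :=
  (cRf_mult n).map_mul_of_coprime h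

private lemma cR_per_CRM (s : ℕ) (m n : ℤ) (_hs : 1 ≤ s) (h : (s : ℤ) ∣ m - n) :
    cR s m = cR s n := by
  unfold cR
  congr 1
  apply Finset.filter_congr
  intro d hd
  have h1 : (d : ℤ) ∣ s := by exact_mod_cast Nat.dvd_of_mem_divisors hd
  have h2 : (d : ℤ) ∣ m - n := h1.trans h
  constructor
  · intro h3
    have := dvd_sub h3 h2
    simpa using this
  · intro h3
    have := dvd_add h2 h3
    simpa using this

private lemma cR_size_CRM (n : ℤ) : ∀ s : ℕ, 1 ≤ s → Squarefree s →
    |cR s n| = Nat.totient (Nat.gcd s n.natAbs) := by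
  intro s
  induction s using Nat.recOnPosPrimePosCoprime with
  | zero => intro h; omega
  | one => intro _ _; simp [cR_one]
  | prime_pow p k hp hk =>
    intro _ hsq
    have hk1 : k = 1 := by
      by_contra hne
      have h2 : 2 ≤ k := by omega
      have h3 : p * p ∣ p ^ k := by
        rw [← pow_two]; exact pow_dvd_pow p h2
      exact hp.one_lt.ne' (Nat.isUnit_iff.1 (hsq p h3))
    subst hk1
    rw [pow_one, cR_prime p hp]
    by_cases h : (p : ℤ) ∣ n
    · rw [if_pos h]
      have h1 : p ∣ n.natAbs := Int.natCast_dvd.1 h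
      rw [Nat.gcd_eq_left h1, Nat.totient_prime hp, Nat.cast_sub hp.one_le]
      have : (1 : ℤ) ≤ p := by exact_mod_cast hp.one_le
      rw [abs_of_nonneg (by linarith)]
      simp
    · rw [if_neg h]
      have h1 : ¬ p ∣ n.natAbs := fun h2 => h (Int.natCast_dvd.2 h2)
      rw [(hp.coprime_iff_not_dvd).2 h1]
      simp
  | coprime a b ha hb hab iha ihb =>
    intro _ hsq
    have h1 := Nat.squarefree_mul_iff.1 hsq
    have hg : Nat.gcd (a * b) n.natAbs = Nat.gcd a n.natAbs * Nat.gcd b n.natAbs := by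
      rw [Nat.gcd_comm (a * b), Nat.Coprime.gcd_mul n.natAbs hab, Nat.gcd_comm n.natAbs a,
        Nat.gcd_comm n.natAbs b]
    have hc : Nat.Coprime (Nat.gcd a n.natAbs) (Nat.gcd b n.natAbs) :=
      Nat.Coprime.coprime_dvd_left (Nat.gcd_dvd_left _ _)
        (Nat.Coprime.coprime_dvd_right (Nat.gcd_dvd_left _ _) hab)
    rw [cR_mul_CRM a b n hab, abs_mul, iha (by omega) h1.2.1, ihb (by omega) h1.2.2, hg,
      Nat.totient_mul hc]
    push_cast
    rfl

theorem hCrm : StCrm := ⟨cR_mul_CRM, cR_per_CRM, fun s n => cR_size_CRM n s⟩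

end Pool.Agent.Helper80.PB
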