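import Pool.Agent.Helper58.PB.StB

/-!
# Project PB, module WTB: size of the weights
-/

set_option autoImplicit false

namespace Pool.Agent.Helper80.PB

open Finset ArithmeticFunction
open Pool.Agent.Helper58.PB
open Pool.Agent.Helper23.GK (cR)
open Pool.Agent.Helper23.MV (PCh PS ZF ZS mwt OKb ta Sc mm)

/-- `s ≤ τ(s) φ(s)` -/
private lemma le_tau_phi_WTB (s : ℕ) (hs : 1 ≤ s) :
    s ≤ s.divisors.card * Nat.totient s := by
  have h1 : ∑ d ∈ s.divisors, Nat.totient d = s := Nat.sum_totient s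
  calc s = ∑ d ∈ s.divisors, Nat.totient d := h1.symm
    _ ≤ ∑ _d ∈ s.divisors, Nat.totient s := by
        refine Finset.sum_le_sum fun d hd => ?_
        exact Nat.le_of_dvd (Nat.totient_pos.2 (by omega))
          (Nat.totient_dvd_of_dvd (Nat.dvd_of_mem_divisors hd))
    _ = s.divisors.card * Nat.totient s := by simp

private lemma inv_phi_WTB (s : ℕ) (hs : 1 ≤ s) :
    1 / (Nat.totient s : ℝ) ≤ (s.divisors.card : ℝ) / s := by
  have h1 : (s : ℝ) ≤ s.divisors.card * Nat.totient s := by exact_mod_cast le_tau_phi_WTB s hs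
  have h2 : (0 : ℝ) < Nat.totient s := by exact_mod_cast Nat.totient_pos.2 (by omega)
  have h3 : (0 : ℝ) < s := by exact_mod_cast hs
  rw [div_le_div_iff₀ h2 h3]
  linarith

/-- the term of the sum -/
private lemma term_WTB (hC : StCrm) (s n : ℕ) (hs : 1 ≤ s) (_hn : 1 ≤ n) :
    |(moebius s : ℝ) / (Nat.totient s : ℝ) * ((cR s n : ℤ) : ℝ)| ≤
      1 / (Nat.totient (s / Nat.gcd s n) : ℝ) := by
  by_cases hsq : Squarefree s
  · have h1 := hC.2.2 s n hs hsq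
    have h1' : |((cR s n : ℤ) : ℝ)| = (Nat.totient (Nat.gcd s n) : ℝ) := by
      rw [← Int.cast_abs, h1]
      simp
    have hg : 0 < Nat.gcd s n := Nat.gcd_pos_of_pos_left _ (by omega)
    have hmul : Nat.gcd s n * (s / Nat.gcd s n) = s := Nat.mul_div_cancel' (Nat.gcd_dvd_left _ _)
    have hcop : Nat.Coprime (Nat.gcd s n) (s / Nat.gcd s n) := by
      rw [← hmul] at hsq
      exact (Nat.squarefree_mul_iff.1 hsq).1
    have hphi : Nat.totient s = Nat.totient (Nat.gcd s n) * Nat.totient (s / Nat.gcd s n) := by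
      rw [← Nat.totient_mul hcop, hmul]
    have hp1 : (0 : ℝ) < Nat.totient (Nat.gcd s n) := by exact_mod_cast Nat.totient_pos.2 hg
    have hs' : 0 < s / Nat.gcd s n := Nat.div_pos (Nat.gcd_le_left _ (by omega)) hg
    have hp2 : (0 : ℝ) < Nat.totient (s / Nat.gcd s n) := by exact_mod_cast Nat.totient_pos.2 hs'
    have hmu : |(moebius s : ℝ)| ≤ 1 := by
      have := abs_moebius_le_one (n := s)
      exact_mod_cast this
    rw [abs_mul, abs_div, h1', hphi]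
    push_cast
    rw [abs_of_pos (mul_pos hp1 hp2)]
    rw [div_mul_eq_mul_div, div_le_div_iff₀ (mul_pos hp1 hp2) hp2]
    have : |(moebius s : ℝ)| * (Nat.totient (Nat.gcd s n) : ℝ) ≤
        1 * (Nat.totient (Nat.gcd s n) : ℝ) := mul_le_mul_of_nonneg_right hmu hp1.le
    nlinarith [mul_le_mul_of_nonneg_right this hp2.le]
  · rw [moebius_eq_zero_of_not_squarefree hsq]
    simp

private lemma sum_WTB (hC : StCrm) (Q r n : ℕ) (hn : 1 ≤ n) :
    |sw Q r n| ≤ (n.divisors.card : ℝ) * ∑ s ∈ Icc 1 Q, 1 / (Nat.totient s : ℝ) := by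
  unfold sw
  refine (Finset.abs_sum_le_sum_abs _ _).trans ?_
  have h1 : ∑ s ∈ (Icc 1 Q).filter (fun s => Nat.Coprime s r),
      |(moebius s : ℝ) / (Nat.totient s : ℝ) * ((cR s n : ℤ) : ℝ)| ≤
      ∑ s ∈ Icc 1 Q, 1 / (Nat.totient (s / Nat.gcd s n) : ℝ) := by
    refine (Finset.sum_le_sum fun s hs => ?_).trans
      (Finset.sum_le_sum_of_subset_of_nonneg (Finset.filter_subset _ _) fun s _ _ => by positivity)
    rw [Finset.mem_filter, Finset.mem_Icc] at hs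
    exact term_WTB hC s n hs.1.1 hn
  refine h1.trans ?_
  have h2 : ∑ s ∈ Icc 1 Q, 1 / (Nat.totient (s / Nat.gcd s n) : ℝ) =
      ∑ z ∈ (Icc 1 Q).image (fun s => (Nat.gcd s n, s / Nat.gcd s n)),
        1 / (Nat.totient z.2 : ℝ) := by
    rw [Finset.sum_image]
    intro x _ y _ hxy
    simp only [Prod.mk.injEq] at hxy
    have hx := Nat.mul_div_cancel' (Nat.gcd_dvd_left x n)
    have hy := Nat.mul_div_cancel' (Nat.gcd_dvd_left y n)
    calc x = Nat.gcd x n * (x / Nat.gcd x n) := hx.symm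
      _ = Nat.gcd y n * (y / Nat.gcd y n) := by rw [hxy.2, hxy.1]
      _ = y := hy
  rw [h2]
  have h3 : (Icc 1 Q).image (fun s => (Nat.gcd s n, s / Nat.gcd s n)) ⊆
      n.divisors ×ˢ Icc 1 Q := by
    intro z hz
    rw [Finset.mem_image] at hz
    obtain ⟨s, hs, rfl⟩ := hz
    rw [Finset.mem_Icc] at hs
    rw [Finset.mem_product, Nat.mem_divisors, Finset.mem_Icc]
    have hg : 0 < Nat.gcd s n := Nat.gcd_pos_of_pos_left _ (by omega)
    refine ⟨⟨Nat.gcd_dvd_right _ _, by omega⟩, ?_, ?_⟩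
    · exact Nat.div_pos (Nat.gcd_le_left _ (by omega)) hg
    · exact (Nat.div_le_self _ _).trans hs.2
  refine (Finset.sum_le_sum_of_subset_of_nonneg h3 fun z _ _ => by positivity).trans ?_
  rw [Finset.sum_product]
  simp

private lemma phisum_WTB (δ C : ℝ) (hδ : 0 < δ) (hC1 : 1 ≤ C)
    (hC : ∀ n : ℕ, 1 ≤ n → (n.divisors.card : ℝ) ≤ C * (n : ℝ) ^ δ) (Q : ℕ) (hQ : 1 ≤ Q) :
    ∑ s ∈ Icc 1 Q, 1 / (Nat.totient s : ℝ) ≤ C * (1 + 1 / δ) * ((Q : ℝ) ^ δ * (Q : ℝ) ^ δ) := by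
  have hQ1 : (1 : ℝ) ≤ Q := by exact_mod_cast hQ
  have h0 : ∀ s ∈ Icc 1 Q, 1 / (Nat.totient s : ℝ) ≤ C * (Q : ℝ) ^ δ * (1 / (s : ℝ)) := by
    intro s hs
    rw [Finset.mem_Icc] at hs
    refine (inv_phi_WTB s hs.1).trans ?_
    have hs0 : (0 : ℝ) < s := by exact_mod_cast hs.1
    rw [div_eq_mul_one_div]
    apply mul_le_mul_of_nonneg_right _ (by positivity)
    refine (hC s hs.1).trans ?_
    apply mul_le_mul_of_nonneg_left _ (by linarith)
    exact Real.rpow_le_rpow hs0.le (by exact_mod_cast hs.2) hδ.le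
  refine (Finset.sum_le_sum h0).trans ?_
  rw [← Finset.mul_sum]
  have h1 : ∑ s ∈ Icc 1 Q, 1 / (s : ℝ) ≤ 1 + Real.log Q := by
    have := harmonic_le_one_add_log Q
    rw [harmonic_eq_sum_Icc] at this
    push_cast at this
    simpa [one_div] using this
  have h2 : Real.log Q ≤ (Q : ℝ) ^ δ / δ := Real.log_le_rpow_div (by linarith) hδ
  have h3 : (1 : ℝ) ≤ (Q : ℝ) ^ δ := Real.one_le_rpow hQ1 hδ.le
  have h4 : ∑ s ∈ Icc 1 Q, 1 / (s : ℝ) ≤ (1 + 1 / δ) * (Q : ℝ) ^ δ := by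
    refine h1.trans ?_
    have : (1 + 1 / δ) * (Q : ℝ) ^ δ = (Q : ℝ) ^ δ + (Q : ℝ) ^ δ / δ := by ring
    rw [this]
    linarith
  have h5 : 0 ≤ C * (Q : ℝ) ^ δ := by positivity
  calc C * (Q : ℝ) ^ δ * ∑ s ∈ Icc 1 Q, 1 / (s : ℝ)
      ≤ C * (Q : ℝ) ^ δ * ((1 + 1 / δ) * (Q : ℝ) ^ δ) := mul_le_mul_of_nonneg_left h4 h5
    _ = C * (1 + 1 / δ) * ((Q : ℝ) ^ δ * (Q : ℝ) ^ δ) := by ring

theorem hWtb : StDvb → StCrm → StWtb := by
  intro hD hCr ε hε
  have hδ : 0 < ε / 2 := by linarith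
  obtain ⟨C, hC1, hC⟩ := hD (ε / 2) hδ
  refine ⟨C * C * (C * (1 + 1 / (ε / 2))), ?_, ?_⟩
  · have h1 : 0 ≤ 1 / (ε / 2) := by positivity
    have h2 : 1 ≤ C * C := by nlinarith
    have h3 : 1 ≤ C * (1 + 1 / (ε / 2)) := by nlinarith
    nlinarith
  · intro Q n c hQ hn
    have hr1 : 1 ≤ c.r := Nat.one_le_iff_ne_zero.2 c.hr
    have hr1' : (1 : ℝ) ≤ c.r := by exact_mod_cast hr1
    have hQ1 : (1 : ℝ) ≤ Q := by exact_mod_cast hQ
    have hn1 : (1 : ℝ) ≤ n := by exact_mod_cast hn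
    have hphi : (0 : ℝ) < Nat.totient c.r := by exact_mod_cast Nat.totient_pos.2 (by omega)
    have hev : ‖c.ev n‖ ≤ 1 := DirichletCharacter.norm_le_one _ _
    have h1 : (c.r : ℝ) / Nat.totient c.r ≤ C * (c.r : ℝ) ^ (ε / 2) := by
      refine le_trans ?_ (hC c.r hr1)
      rw [div_le_iff₀ hphi]
      exact_mod_cast le_tau_phi_WTB c.r hr1
    have h2 := sum_WTB hCr Q c.r n hn
    have h3 := phisum_WTB (ε / 2) C hδ hC1 hC Q hQ
    have h4 := hC n hn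
    have hsum0 : 0 ≤ ∑ s ∈ Icc 1 Q, 1 / (Nat.totient s : ℝ) :=
      Finset.sum_nonneg fun s _ => by positivity
    have h5 : |sw Q c.r n| ≤ (C * (n : ℝ) ^ (ε / 2)) *
        (C * (1 + 1 / (ε / 2)) * ((Q : ℝ) ^ (ε / 2) * (Q : ℝ) ^ (ε / 2))) :=
      h2.trans (mul_le_mul h4 h3 hsum0 (by positivity))
    unfold wt
    rw [norm_mul, norm_mul, norm_div, Complex.norm_natCast, Complex.norm_natCast,
      RCLike.norm_conj, Complex.norm_real, Real.norm_eq_abs]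
    have h6 : (c.r : ℝ) / Nat.totient c.r * ‖c.ev n‖ ≤ C * (c.r : ℝ) ^ (ε / 2) * 1 :=
      mul_le_mul h1 hev (norm_nonneg _) (by positivity)
    refine (mul_le_mul h6 h5 (abs_nonneg _) (by positivity)).trans ?_
    have hsplit : ∀ x : ℝ, 1 ≤ x → x ^ (ε / 2) * x ^ (ε / 2) = x ^ ε := by
      intro x hx
      rw [← Real.rpow_add (by linarith)]
      congr 1
      ring
    have hle : ∀ x : ℝ, 1 ≤ x → x ^ (ε / 2) ≤ x ^ ε := fun x hx =>
      Real.rpow_le_rpow_of_exponent_le hx (by linarith)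
    rw [Real.mul_rpow (by positivity) (by positivity), Real.mul_rpow (by positivity) (by positivity),
      hsplit Q hQ1]
    have h7 : (c.r : ℝ) ^ (ε / 2) * (n : ℝ) ^ (ε / 2) ≤ (c.r : ℝ) ^ ε * (n : ℝ) ^ ε :=
      mul_le_mul (hle _ hr1') (hle _ hn1) (by positivity) (by positivity)
    have h8 : 0 ≤ C * C * (C * (1 + 1 / (ε / 2))) * (Q : ℝ) ^ ε := by positivity
    calc C * (c.r : ℝ) ^ (ε / 2) * 1 * (C * (n : ℝ) ^ (ε / 2) *
          (C * (1 + 1 / (ε / 2)) * (Q : ℝ) ^ ε))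
        = C * C * (C * (1 + 1 / (ε / 2))) * (Q : ℝ) ^ ε *
          ((c.r : ℝ) ^ (ε / 2) * (n : ℝ) ^ (ε / 2)) := by ring
      _ ≤ C * C * (C * (1 + 1 / (ε / 2))) * (Q : ℝ) ^ ε * ((c.r : ℝ) ^ ε * (n : ℝ) ^ ε) :=
          mul_le_mul_of_nonneg_left h7 h8
      _ = C * C * (C * (1 + 1 / (ε / 2))) * ((c.r : ℝ) ^ ε * (Q : ℝ) ^ ε * (n : ℝ) ^ ε) := by ring

end Pool.Agent.Helper80.PB
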